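import Mathlib

/-!
# Cauchy-Binet for sums of rank one matrices (helper20)
-/

set_option autoImplicit false

namespace Pool.Agent.H20CB

open Finset

variable {E : Type*} [Fintype E] [DecidableEq E] {K : Type*} [CommRing K] {k : ℕ}

/-- The sum of the rank one matrices of the elements of `A`. -/
def M (v w : E → Fin k → K) (A : Finset E) : Matrix (Fin k) (Fin k) K :=
  Matrix.of fun i j => ∑ x ∈ A, v x i * w x j

/-- The term of a function. -/
def trm (v w : E → Fin k → K) (f : Fin k → E) : K :=
  (∏ i, v (f i) i) * (Matrix.of fun i => w (f i)).det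

theorem det_M_pi (v w : E → Fin k → K) (A : Finset E) :
    (M v w A).det = ∑ f ∈ Fintype.piFinset (fun _ : Fin k => A), trm v w f := by
  have h1 : M v w A = fun i => ∑ x ∈ A, v x i • w x := by
    ext i j
    simp [M, Finset.sum_apply]
  have h2 := (Matrix.detRowAlternating (R := K) (n := Fin k)).toMultilinearMap.map_sum_finset
    (fun i x => v x i • w x) (fun _ => A)
  rw [h1]
  refine h2.trans (Finset.sum_congr rfl fun f _ => ?_)
  exact (Matrix.detRowAlternating (R := K) (n := Fin k)).toMultilinearMap.map_smul_univ
    (fun i => v (f i) i) (fun i => w (f i))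

theorem trm_not_inj (v w : E → Fin k → K) (f : Fin k → E) (hf : ¬ Function.Injective f) :
    trm v w f = 0 := by
  rw [Function.Injective] at hf
  push Not at hf
  obtain ⟨i, j, hij, hne⟩ := hf
  unfold trm
  rw [Matrix.det_zero_of_row_eq hne (by ext t; simp [hij]), mul_zero]

/-- **Cauchy-Binet.** -/
theorem det_M (v w : E → Fin k → K) (Z : Finset E) :
    (M v w Z).det = ∑ A ∈ Z.powersetCard k, (M v w A).det := by
  have h1 : ∀ A : Finset E, (M v w A).det =
      ∑ f ∈ (Fintype.piFinset (fun _ : Fin k => A)).filter Function.Injective, trm v w f := by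
    intro A
    rw [det_M_pi, Finset.sum_filter_of_ne]
    intro f _ hf
    by_contra h
    exact hf (trm_not_inj v w f h)
  rw [h1 Z, ← Finset.sum_fiberwise_of_maps_to (t := Z.powersetCard k)
    (g := fun f : Fin k → E => univ.image f)]
  · refine Finset.sum_congr rfl fun A hA => ?_
    rw [h1 A]
    refine Finset.sum_congr ?_ fun _ _ => rfl
    rw [Finset.mem_powersetCard] at hA
    ext f
    simp only [Finset.mem_filter, Fintype.mem_piFinset]
    constructor
    · rintro ⟨⟨h2, h3⟩, rfl⟩
      exact ⟨fun i => mem_image_of_mem _ (mem_univ i), h3⟩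
    · rintro ⟨h2, h3⟩
      refine ⟨⟨fun i => hA.1 (h2 i), h3⟩, ?_⟩
      refine Finset.eq_of_subset_of_card_le ?_ ?_
      · intro x hx
        obtain ⟨i, _, rfl⟩ := mem_image.1 hx
        exact h2 i
      · rw [Finset.card_image_of_injective _ h3, hA.2, Finset.card_univ, Fintype.card_fin]
  · intro f hf
    simp only [Finset.mem_filter, Fintype.mem_piFinset] at hf
    rw [Finset.mem_powersetCard]
    refine ⟨?_, ?_⟩
    · intro x hx
      obtain ⟨i, _, rfl⟩ := mem_image.1 hx
      exact hf.1 i
    · rw [Finset.card_image_of_injective _ hf.2, Finset.card_univ, Fintype.card_fin]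

theorem det_M_small (v w : E → Fin k → K) (A : Finset E) (hA : A.card < k) :
    (M v w A).det = 0 := by
  rw [det_M, Finset.powersetCard_eq_empty.2 hA, Finset.sum_empty]

/-- The determinant of the complement. -/
theorem det_M_compl (v w : E → Fin k → K) (hrel : ∀ i j, ∑ x, v x i * w x j = 0)
    (R : Finset E) : (M v w Rᶜ).det = (-1) ^ k * (M v w R).det := by
  have h1 : M v w Rᶜ = -M v w R := by
    ext i j
    have := Finset.sum_add_sum_compl R fun x => v x i * w x j
    rw [hrel i j] at this
    simp only [M, Matrix.of_apply, Matrix.neg_apply]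
    linear_combination this
  rw [h1, Matrix.det_neg, Fintype.card_fin]

/-- **All link sums vanish.** -/
theorem link (v w : E → Fin k → K) (hrel : ∀ i j, ∑ x, v x i * w x j = 0)
    (C : Finset E) : ∀ R : Finset E, C.card + R.card < k →
      ∑ A ∈ (univ.powersetCard k).filter (fun A : Finset E => C ⊆ A ∧ Disjoint A R),
        (M v w A).det = 0 := by
  induction C using Finset.induction_on with
  | empty =>
    intro R hR
    have h1 : (univ.powersetCard k).filter (fun A : Finset E => ∅ ⊆ A ∧ Disjoint A R) =
        Rᶜ.powersetCard k := by
      ext A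
      simp only [Finset.mem_filter, Finset.mem_powersetCard, Finset.subset_univ, true_and,
        Finset.empty_subset, ← Finset.subset_compl_iff_disjoint_right]
      exact and_comm
    rw [h1, ← det_M, det_M_compl v w hrel, det_M_small v w R (by simpa using hR), mul_zero]
  | insert c C hc ih =>
    intro R hR
    rw [Finset.card_insert_of_notMem hc] at hR
    have h1 := ih R (by omega)
    have h2 := ih (insert c R) (by
      have := Finset.card_insert_le c R
      omega)
    have h3 : (univ.powersetCard k).filter (fun A : Finset E => C ⊆ A ∧ Disjoint A R) =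
        (univ.powersetCard k).filter (fun A : Finset E => insert c C ⊆ A ∧ Disjoint A R) ∪
        (univ.powersetCard k).filter (fun A : Finset E => C ⊆ A ∧ Disjoint A (insert c R)) := by
      ext A
      simp only [Finset.mem_filter, Finset.mem_union, Finset.insert_subset_iff,
        Finset.disjoint_insert_right]
      tauto
    have h4 : Disjoint
        ((univ.powersetCard k).filter (fun A : Finset E => insert c C ⊆ A ∧ Disjoint A R))
        ((univ.powersetCard k).filter
          (fun A : Finset E => C ⊆ A ∧ Disjoint A (insert c R))) := by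
      rw [Finset.disjoint_left]
      intro A hA hA'
      simp only [Finset.mem_filter, Finset.insert_subset_iff, Finset.disjoint_insert_right]
        at hA hA'
      exact hA'.2.2.1 hA.2.1.1
    rw [h3, Finset.sum_union h4, h2, add_zero] at h1
    exact h1

/-- The case `R = ∅`. -/
theorem link0 (v w : E → Fin k → K) (hrel : ∀ i j, ∑ x, v x i * w x j = 0)
    (C : Finset E) (hC : C.card < k) :
    ∑ A ∈ (univ.powersetCard k).filter (fun A : Finset E => C ⊆ A), (M v w A).det = 0 := by
  have h := link v w hrel C ∅ (by simpa using hC)
  simpa using h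

/-- The determinant as a product. -/
theorem det_M_image (v w : E → Fin k → K) (a : Fin k → E) (ha : Function.Injective a) :
    (M v w (univ.image a)).det =
      (Matrix.of fun t => v (a t)).det * (Matrix.of fun t => w (a t)).det := by
  have h1 : M v w (univ.image a) =
      (Matrix.of fun t => v (a t)).transpose * Matrix.of fun t => w (a t) := by
    ext i j
    simp only [M, Matrix.of_apply, Matrix.mul_apply, Matrix.transpose_apply]
    rw [Finset.sum_image fun x _ y _ h => ha h]
  rw [h1, Matrix.det_mul, Matrix.det_transpose]

end Pool.Agent.H20CB
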